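import Pool.Agent.Helper743.KTFin
import Pool.Agent.Helper743.PRMain2

/-!
# A K-trivial set which is not computable from some `Δ⁰₂` almost complete set

Combines the noncomputable c.e. K-trivial set of `Pool/Agent/Helper743/KTSet.lean` with the
almost complete sets below the halting problem which avoid the upper cone of a given noncomputable
c.e. set (starting file `S14519`, problem `MP_29fd35_lc`).
-/

set_option autoImplicit false

namespace Pool.Agent.Results.MP_95c08c_lc.KTrivialNotBelow

open Pool.Agent.Helper743 Pool.Agent.Helper743.KT Nat.Partrec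

/-- `A` is Turing reducible to `B`, for sets given by their characteristic functions. -/
def Below (A B : ℕ → Bool) : Prop :=
  TuringReducible (fun n => Part.some (A n).toNat : ℕ →. ℕ)
    (fun n => Part.some (B n).toNat : ℕ →. ℕ)

/-- `f` is upper semicomputable relative to the set `B`: the set of the pairs `(n, k)` with
`f n ≤ k` is the domain of a function that is partial computable relative to `B`. -/
def UpperSemi (B : ℕ → Bool) (f : ℕ → ℕ) : Prop :=
  ∃ φ : ℕ →. ℕ, TuringReducible φ (fun n => Part.some (B n).toNat : ℕ →. ℕ) ∧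
    ∀ n k : ℕ, (φ (Nat.pair n k)).Dom ↔ f n ≤ k

/-- All finite sums of the numbers `2 ^ (- f n)` are at most `1`. -/
def KraftSum (f : ℕ → ℕ) : Prop := ∀ s : Finset ℕ, ∑ n ∈ s, (1 / 2 : ℝ) ^ f n ≤ 1

/-- `κ` is (a version of) prefix-free Kolmogorov complexity relative to `B`, on natural numbers:
the least function up to an additive constant among the functions which are upper semicomputable
relative to `B` and satisfy the Kraft inequality. -/
def IsComplexity (B : ℕ → Bool) (κ : ℕ → ℕ) : Prop :=
  UpperSemi B κ ∧ KraftSum κ ∧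
    ∀ f : ℕ → ℕ, UpperSemi B f → KraftSum f → ∃ c : ℕ, ∀ n, κ n ≤ f n + c

/-- `X` is K-trivial relative to `B`: the complexity relative to `B` of the string of the first
`n` bits of `X` exceeds the complexity relative to `B` of `n` by at most a constant. Strings
are coded by natural numbers in the standard way. -/
def KTrivialRel (X B : ℕ → Bool) : Prop :=
  ∃ κ : ℕ → ℕ, IsComplexity B κ ∧
    ∃ c : ℕ, ∀ n : ℕ, κ (Encodable.encode (List.ofFn (fun i : Fin n => X i))) ≤ κ n + c

/-- The empty set. -/
def emptySet : ℕ → Bool := fun _ => false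

/-- `X` is K-trivial, that is, K-trivial relative to the empty set. -/
def KTrivial (X : ℕ → Bool) : Prop := KTrivialRel X emptySet

/-- The halting problem. -/
noncomputable def haltingSet (n : ℕ) : Bool :=
  open Classical in decide (Code.eval (Denumerable.ofNat Code n) n).Dom

/-- `B` is almost complete: the halting problem is K-trivial relative to `B`. -/
def AlmostComplete (B : ℕ → Bool) : Prop := KTrivialRel haltingSet B

lemma emptySet_toNat : (fun n => (emptySet n).toNat) = fun _ => 0 := rfl

/-- Sanity check: a function is upper semicomputable relative to the empty set exactly if it is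
upper semicomputable, that is, the set of the pairs `(n, k)` with `f n ≤ k` is computably
enumerable. -/
theorem sanity_upperSemi (f : ℕ → ℕ) :
    UpperSemi emptySet f ↔ REPred fun p : ℕ × ℕ => f p.1 ≤ p.2 := by
  have hc : ∀ φ : ℕ →. ℕ, TuringReducible φ (fun n => Part.some (emptySet n).toNat : ℕ →. ℕ) ↔
      Nat.Partrec φ := by
    intro φ
    unfold TuringReducible
    rw [RecursiveIn.iff_nat]
    constructor
    · intro h
      refine Nat.RecursiveIn.partrec_of_oracle ?_ h
      intro g hg
      have hg' := Set.mem_singleton_iff.1 hg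
      subst hg'
      exact Partrec.nat_iff.1 (Computable.const 0)
    · intro h
      exact Nat.Partrec.recursiveIn h
  constructor
  · rintro ⟨φ, h1, h2⟩
    have h3 : Partrec fun p : ℕ × ℕ => φ (Nat.pair p.1 p.2) :=
      Partrec.comp (Partrec.nat_iff.2 ((hc φ).1 h1)) Primrec₂.natPair.to_comp
    exact h3.dom_re.of_eq fun p => h2 p.1 p.2
  · intro h
    have h1 : Partrec fun z : ℕ => Part.map (fun _ => 0)
        (Part.assert (f z.unpair.1 ≤ z.unpair.2) fun _ => Part.some ()) :=
      Partrec.map (h.comp Computable.unpair) (Computable.const 0).to₂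
    refine ⟨_, (hc _).2 (Partrec.nat_iff.1 h1), fun n k => ?_⟩
    simp [Part.assert]

lemma hUp (B : ℕ → Bool) (f : ℕ → ℕ) : UpperSemi B f ↔ UpS (fun n => (B n).toNat) f := by
  constructor
  · rintro ⟨φ, h1, h2⟩
    exact ⟨φ, RecursiveIn.iff_nat.1 h1, h2⟩
  · rintro ⟨φ, h1, h2⟩
    exact ⟨φ, RecursiveIn.iff_nat.2 h1, h2⟩

lemma complexity_of_opt {B : ℕ → Bool} {G : ℕ → ℕ} (h1 : TR G fun n => (B n).toNat)
    (h2 : TR (fun n => (B n).toNat) G) : IsComplexity B (KG G) := by
  obtain ⟨h3, h4, h5⟩ := Opt_of_TR h1 h2 (Opt_KG G)
  exact ⟨(hUp B _).2 h3, h4, fun f hf hk => h5 f ((hUp B f).1 hf) hk⟩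

/-- There are a computably enumerable K-trivial set `A` and an almost complete set `B` computable
from the halting problem such that `A` is not computable from `B`. -/
theorem result : ∃ A B : ℕ → Bool, REPred (fun n => A n = true) ∧ KTrivial A ∧
    Below B haltingSet ∧ AlmostComplete B ∧ ¬ Below A B := by
  classical
  have hBel : ∀ A B : ℕ → Bool, Below A B ↔ TR (fun n => (A n).toNat) (fun n => (B n).toNat) :=
    fun A B => TR_iff.symm
  have hK0 : (fun n => (haltingSet n).toNat) = K0 := by
    funext n
    unfold haltingSet K0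
    by_cases h : (Code.eval (Denumerable.ofNat Code n) n).Dom <;> simp [h]
  -- the set `A` and its index
  obtain ⟨A, hA⟩ : ∃ A : ℕ → Bool, A = fun n => decide (inA n) := ⟨_, rfl⟩
  have hAi : ∀ n, A n = true ↔ inA n := fun n => by rw [hA]; simp
  have hchi : chiA = fun n => (A n).toNat := by
    funext n
    unfold chiA Pool.Agent.Helper743.chi
    rw [hA]
    by_cases h : inA n <;> simp [h]
  have hre : REPred fun n => A n = true := inA_re.of_eq fun n => (hAi n).symm
  obtain ⟨c, hc⟩ : ∃ c : Code, ∀ n, (c.eval n).Dom ↔ A n = true := by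
    have h1 : Partrec fun n : ℕ => Part.map (fun _ => 0)
        (Part.assert (A n = true) fun _ => Part.some ()) :=
      Partrec.map hre (Computable.const 0).to₂
    obtain ⟨c, hc⟩ := Code.exists_code.1 (Partrec.nat_iff.1 h1)
    exact ⟨c, fun n => by rw [hc]; simp [Part.assert]⟩
  set a := Encodable.encode c with ha
  have hWA : AC.WA a = fun n => (A n).toNat := by
    funext n
    unfold AC.WA K
    rw [Nat.unpair_pair, ha, Denumerable.ofNat_encode]
    by_cases h : A n = true
    · rw [if_pos ((hc n).2 h), h]; rfl
    · rw [if_neg (fun h1 => h ((hc n).1 h1))]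
      rw [Bool.not_eq_true] at h
      rw [h]; rfl
  have hnc : ¬ Computable (AC.WA a) := by
    rw [hWA, ← hchi]
    exact not_computable
  refine ⟨A, gr (AC.GG a), hre, ?_, ?_, ?_, ?_⟩
  · obtain ⟨d, hd⟩ := inA_triv
    refine ⟨KG fun m => m, complexity_of_opt (TR_of_computable Computable.id)
      (TR_of_computable (Computable.const 0)), d, fun n => ?_⟩
    have h1 : XA n = List.ofFn (fun i : Fin n => A i) := by
      unfold XA
      apply List.ext_getElem
      · simp
      · intro i _ _
        simp [hA]
    rw [← h1]
    exact hd n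
  · rw [hBel, hK0]
    exact TR.trans (gr_TR _) (TR.trans (AC.limC_GG a).TR_K K_TR_K0)
  · obtain ⟨d, hd⟩ := halting_triv a
    refine ⟨KG (AC.GG a), complexity_of_opt (TR_gr _) (gr_TR _), d, fun n => ?_⟩
    have h1 : AC.kstr n = List.ofFn (fun i : Fin n => haltingSet i) := kstr_eq n
    rw [← h1]
    exact hd n
  · intro h
    rw [hBel] at h
    apply AC.avoids a hnc
    rw [hWA]
    exact TR.trans h (gr_TR _)

end Pool.Agent.Results.MP_95c08c_lc.KTrivialNotBelow
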